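import Pool.Agent.W483.FB.Stm2

/-!
# Project FB, part FB-14: from sites to the rate
-/

open Finset Matrix Filter
open scoped Topology

namespace Pool.Agent.W174.FB

open Pool.Agent.H390R2.LP Pool.Agent.H235R2.QLP Pool.Agent.W483.FB

namespace Rate

lemma bddAbove_A (n d : ℕ) : BddAbove {k | ∃ C : Finset (Fin n → Bool),
    (∀ x ∈ C, ∀ y ∈ C, x ≠ y → d ≤ hammingDist x y) ∧ C.card = k} := by
  refine ⟨Fintype.card (Fin n → Bool), ?_⟩
  rintro k ⟨C, -, rfl⟩
  exact Finset.card_le_univ C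

lemma A_pos (n d : ℕ) : 1 ≤ A n d := by
  refine le_csSup (bddAbove_A n d) ⟨{fun _ => false}, ?_, by simp⟩
  intro x hx y hy hxy
  rw [Finset.mem_singleton] at hx hy
  exact absurd (hx.trans hy.symm) hxy

lemma A_mem (n d : ℕ) : ∃ C : Finset (Fin n → Bool),
    (∀ x ∈ C, ∀ y ∈ C, x ≠ y → d ≤ hammingDist x y) ∧ C.card = A n d := by
  have h : (A n d) ∈ {k | ∃ C : Finset (Fin n → Bool),
      (∀ x ∈ C, ∀ y ∈ C, x ≠ y → d ≤ hammingDist x y) ∧ C.card = k} :=
    Nat.sSup_mem ⟨0, ∅, by simp, by simp⟩ (bddAbove_A n d)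
  exact h

lemma rate_nonneg (δ : ℝ) (n : ℕ) : 0 ≤ Real.logb 2 (A n ⌈δ * n⌉₊) / n := by
  have h1 : (1 : ℝ) ≤ A n ⌈δ * n⌉₊ := by exact_mod_cast A_pos n _
  have h2 : 0 ≤ Real.logb 2 (A n ⌈δ * n⌉₊) := Real.logb_nonneg (by norm_num) h1
  positivity

/-- An eventual bound on the rate of codes is a bound on `R`. -/
lemma R_le {δ β : ℝ} (h : ∃ n0 : ℕ, ∀ n ≥ n0, ∀ C : Finset (Fin n → Bool),
      (∀ x ∈ C, ∀ y ∈ C, x ≠ y → δ * n ≤ hammingDist x y) →
      (C.card : ℝ) ≤ (2 : ℝ) ^ (β * n)) : R δ ≤ β := by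
  obtain ⟨n0, hn0⟩ := h
  refine limsup_le_of_le ?_ ?_
  · refine IsBoundedUnder.isCoboundedUnder_le ⟨0, ?_⟩
    rw [eventually_map]
    exact Eventually.of_forall fun n => rate_nonneg δ n
  · filter_upwards [eventually_ge_atTop (max n0 1)] with n hn
    have hn1 : n0 ≤ n := le_trans (le_max_left _ _) hn
    have hn2 : 1 ≤ n := le_trans (le_max_right _ _) hn
    have hnR : (0 : ℝ) < n := by exact_mod_cast hn2
    obtain ⟨C, hC, hcard⟩ := A_mem n ⌈δ * n⌉₊
    have h1 := hn0 n hn1 C (fun x hx y hy hxy => le_trans (Nat.le_ceil _)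
      (by exact_mod_cast hC x hx y hy hxy))
    rw [hcard] at h1
    have hA : (0 : ℝ) < A n ⌈δ * n⌉₊ := by exact_mod_cast A_pos n _
    rw [div_le_iff₀ hnR]
    exact (Real.logb_le_iff_le_rpow (by norm_num) hA).mpr h1

/-- codes over `Bool` from a site with letters in `Fin 2` -/
lemma codes {Ω : Type} [Fintype Ω] [DecidableEq Ω] (s : Site Ω (Fin 2)) {δ η : ℝ}
    (hE : EH s < δ) (hη : 0 < η) : ∃ n0 : ℕ, ∀ n ≥ n0, ∀ C : Finset (Fin n → Bool),
      (∀ x ∈ C, ∀ y ∈ C, x ≠ y → δ * n ≤ hammingDist x y) →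
      (C.card : ℝ) ≤ (2 : ℝ) ^ ((1 - (cc s - η) / Real.log 2) * n) := by
  obtain ⟨n0, hn0⟩ := card_le_of_iid iid (by norm_num : 0 < 2) s hE hη
  have hlog : 0 < Real.log 2 := Real.log_pos (by norm_num)
  refine ⟨n0, fun n hn C hC => ?_⟩
  obtain ⟨e⟩ : Nonempty (Bool ≃ Fin 2) := ⟨Fintype.equivFinOfCardEq Fintype.card_bool⟩
  have hinj : Function.Injective (fun (x : Fin n → Bool) (k : Fin n) => e (x k)) := by
    intro x y hxy
    funext k
    exact e.injective (congrFun hxy k)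
  have h2 := hn0 n hn (C.map ⟨fun x k => e (x k), hinj⟩) (by
    intro x hx y hy hxy
    simp only [Finset.mem_map, Function.Embedding.coeFn_mk] at hx hy
    obtain ⟨a, ha, rfl⟩ := hx
    obtain ⟨b, hb, rfl⟩ := hy
    have hab : a ≠ b := fun h => hxy (by rw [h])
    have h3 : hammingDist (fun k => e (a k)) (fun k => e (b k)) = hammingDist a b :=
      hammingDist_comp (fun _ => e) (fun _ => e.injective)
    rw [h3]
    exact hC a ha b hb hab)
  rw [Finset.card_map] at h2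
  refine le_trans h2 (le_of_eq ?_)
  have h20 : (0 : ℝ) < 2 := by norm_num
  push_cast
  rw [Real.rpow_def_of_pos h20, ← Real.exp_log (show (0 : ℝ) < (2 : ℝ) ^ n by positivity),
    ← Real.exp_add, Real.log_pow]
  congr 1
  field_simp
  ring

end Rate

open Rate in
theorem t_rate : S_rate := by
  intro δ β hδ H
  refine le_of_forall_pos_le_add fun κ hκ => ?_
  have hlog : 0 < Real.log 2 := Real.log_pos (by norm_num)
  have hD : 0 < 2 * (1 + |β|) / δ + 1 := by positivity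
  obtain ⟨ε, hε⟩ : ∃ ε, ε = κ / 2 / (2 * (1 + |β|) / δ + 1) := ⟨_, rfl⟩
  have hε0 : 0 < ε := by rw [hε]; positivity
  have hε1 : ε * (2 * (1 + |β|) / δ + 1) = κ / 2 := by
    rw [hε, div_mul_cancel₀ _ hD.ne']
  obtain ⟨Ω, i1, i2, s, hE, hcc⟩ := H ε hε0
  have hden : 0 < δ + 2 * ε := by positivity
  obtain ⟨r, hr⟩ : ∃ r, r = δ / (δ + 2 * ε) := ⟨_, rfl⟩
  have hr0 : 0 < r := by rw [hr]; positivity
  have hr1 : r ≤ 1 := by rw [hr, div_le_one hden]; linarith
  have hrd : r * (δ + 2 * ε) = δ := by rw [hr, div_mul_cancel₀ _ hden.ne']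
  have hE' : EH (mix s (triv (0 : Fin 2)) r hr0.le hr1) < δ := by
    rw [EH_mix, EH_triv, mul_zero, add_zero]
    have h1 : r * EH s ≤ r * (δ + ε) := mul_le_mul_of_nonneg_left hE hr0.le
    have h2 : r * (δ + ε) < r * (δ + 2 * ε) := mul_lt_mul_of_pos_left (by linarith) hr0
    linarith
  obtain ⟨n0, hn0⟩ := codes (mix s (triv (0 : Fin 2)) r hr0.le hr1) hE'
    (η := κ / 2 * Real.log 2) (by positivity)
  rw [cc_mix, cc_triv, mul_zero, add_zero] at hn0
  refine R_le ⟨n0, fun n hn C hC => (hn0 n hn C hC).trans ?_⟩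
  refine Real.rpow_le_rpow_of_exponent_le (by norm_num) ?_
  refine mul_le_mul_of_nonneg_right ?_ (Nat.cast_nonneg n)
  have e1 : (r * cc s - κ / 2 * Real.log 2) / Real.log 2 = r * (cc s / Real.log 2) - κ / 2 := by
    field_simp
  rw [e1]
  have h1 : 1 - β - ε ≤ cc s / Real.log 2 := by linarith
  have h2 : r * (1 - β - ε) ≤ r * (cc s / Real.log 2) := mul_le_mul_of_nonneg_left h1 hr0.le
  have h3 : (1 - r) * (1 - β) ≤ 2 * ε / δ * (1 + |β|) := by
    have h4 : 0 ≤ 1 - r := by linarith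
    have h5 : 1 - β ≤ 1 + |β| := by linarith [neg_abs_le β]
    have h6 : 1 - r ≤ 2 * ε / δ := by
      rw [le_div_iff₀ hδ]
      nlinarith
    calc (1 - r) * (1 - β) ≤ (1 - r) * (1 + |β|) := mul_le_mul_of_nonneg_left h5 h4
      _ ≤ _ := mul_le_mul_of_nonneg_right h6 (by positivity)
  have h7 : r * ε ≤ ε := by nlinarith
  have h8 : 2 * ε / δ * (1 + |β|) + ε = κ / 2 := by
    rw [← hε1]
    ring
  nlinarith

end Pool.Agent.W174.FB
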